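import Mathlib

/-!
The largest level of a zero to the right of the line `Re s = 1` (helper46, second text).
-/

namespace W3283x46

/-- A continuous function without zeros for `Re s > 3 / 2`: if it has a zero of level `≥ 0` with
`Re s > 1`, then the level of its zeros with `Re s > 1` has a maximum. -/
theorem lev_max (L : ℂ → ℂ) (hL : Continuous L) (hne : ∀ s : ℂ, 3 / 2 < s.re → L s ≠ 0) (A : ℝ)
    (hA : 0 < A) (s1 : ℂ) (h1 : 1 < s1.re) (hs1 : L s1 = 0)
    (hl : 0 ≤ (s1.re - 1) + A * ((s1.re - 1) ^ 2 - s1.im ^ 2) / 2) :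
    ∃ s0 : ℂ, 1 < s0.re ∧ L s0 = 0 ∧ 0 ≤ (s0.re - 1) + A * ((s0.re - 1) ^ 2 - s0.im ^ 2) / 2 ∧
      ∀ s : ℂ, 1 < s.re → L s = 0 → (s.re - 1) + A * ((s.re - 1) ^ 2 - s.im ^ 2) / 2 ≤
        (s0.re - 1) + A * ((s0.re - 1) ^ 2 - s0.im ^ 2) / 2 := by
  obtain ⟨lev, hlev⟩ : ∃ lev : ℂ → ℝ,
      lev = fun s => (s.re - 1) + A * ((s.re - 1) ^ 2 - s.im ^ 2) / 2 := ⟨_, rfl⟩
  have hlc : Continuous lev := by
    rw [hlev]
    fun_prop
  have hle : ∀ s, (s.re - 1) + A * ((s.re - 1) ^ 2 - s.im ^ 2) / 2 = lev s := by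
    intro s
    rw [hlev]
  simp only [hle] at hl ⊢
  by_cases hex : ∃ s' : ℂ, 1 < s'.re ∧ L s' = 0 ∧ lev s1 < lev s'
  · obtain ⟨s', hs'1, hs'0, hs'l⟩ := hex
    have hpos : 0 < lev s' := lt_of_le_of_lt hl hs'l
    have hK : IsCompact {s : ℂ | 1 ≤ s.re ∧ s.re ≤ 3 / 2 ∧ L s = 0 ∧ lev s' ≤ lev s} := by
      refine Metric.isCompact_of_isClosed_isBounded ?_ ?_
      · refine (isClosed_le continuous_const Complex.continuous_re).inter
          ((isClosed_le Complex.continuous_re continuous_const).inter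
            ((isClosed_eq hL continuous_const).inter (isClosed_le continuous_const hlc)))
      · refine (Metric.isBounded_closedBall (x := (0 : ℂ)) (r := 3 / 2 + (1 / A + 1))).subset ?_
        rintro s ⟨ha, hb, -, hd⟩
        rw [mem_closedBall_zero_iff]
        have h2 : 0 < lev s := hpos.trans_le hd
        rw [hlev] at h2
        simp only at h2
        have h8 : (s.re - 1) ^ 2 ≤ 1 / 4 := by nlinarith
        have h9 : A * (s.re - 1) ^ 2 ≤ A * (1 / 4) := mul_le_mul_of_nonneg_left h8 hA.le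
        have h3 : A * s.im ^ 2 ≤ 1 + A / 4 := by nlinarith
        have h4 : s.im ^ 2 ≤ (1 / A + 1) ^ 2 := by
          have h5 : s.im ^ 2 ≤ 1 / A + 1 / 4 := by
            have h6 : A * (1 / A + 1 / 4) = 1 + A / 4 := by field_simp
            refine le_of_mul_le_mul_left ?_ hA
            rw [h6]
            exact h3
          have h7 : 0 < 1 / A := by positivity
          nlinarith
        have h5 : |s.im| ≤ 1 / A + 1 := by
          have h7 : 0 < 1 / A := by positivity
          exact abs_le_of_sq_le_sq h4 (by linarith)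
        have h6 : |s.re| ≤ 3 / 2 := by
          rw [abs_of_nonneg (by linarith)]
          exact hb
        calc ‖s‖ ≤ |s.re| + |s.im| := Complex.norm_le_abs_re_add_abs_im s
          _ ≤ 3 / 2 + (1 / A + 1) := add_le_add h6 h5
    have hmem : s' ∈ {s : ℂ | 1 ≤ s.re ∧ s.re ≤ 3 / 2 ∧ L s = 0 ∧ lev s' ≤ lev s} := by
      refine ⟨hs'1.le, ?_, hs'0, le_rfl⟩
      by_contra hcon
      exact hne s' (not_le.1 hcon) hs'0
    obtain ⟨s0, ⟨ha, hb, hc, hd⟩, hmax⟩ := hK.exists_isMaxOn ⟨s', hmem⟩ hlc.continuousOn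
    have h0 : 0 < lev s0 := hpos.trans_le hd
    refine ⟨s0, ?_, hc, h0.le, fun s hs hs0 => ?_⟩
    · rcases ha.eq_or_lt with h | h
      · exfalso
        rw [hlev] at h0
        simp only at h0
        rw [← h] at h0
        have : 0 ≤ A * s0.im ^ 2 := by positivity
        nlinarith
      · exact h
    · rcases lt_or_ge (lev s) (lev s') with h | h
      · exact (h.le).trans hd
      · refine hmax ⟨hs.le, ?_, hs0, h⟩
        by_contra hcon
        exact hne s (not_le.1 hcon) hs0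
  · push Not at hex
    exact ⟨s1, h1, hs1, hl, fun s hs hs0 => hex s hs hs0⟩

end W3283x46
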